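import Mathlib

/-!
Modules of functions on a finite set with a doubly transitive group, or with a prime number of
elements and a transitive group.
-/

set_option autoImplicit false

open Polynomial

namespace Pool.Agent.H32.DT

variable {F : Type} [Fintype F]

/-- doubly transitive -/
theorem comb_two [DecidableEq F] (G : Subgroup (Equiv.Perm F)) (A : AddSubgroup (F → ℤ))
    (hA : ∀ g ∈ G, ∀ a ∈ A, a ∘ g ∈ A) (h1 : (fun _ => (1 : ℤ)) ∈ A) {a : F → ℤ} (ha : a ∈ A)
    (hne : ∃ x y, a x ≠ a y)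
    (hG : ∀ x y x' y' : F, x ≠ y → x' ≠ y' → ∃ g ∈ G, g x = x' ∧ g y = y') :
    ∃ x₀ : F, ∃ n : ℤ, 0 < n ∧ Pi.single x₀ n ∈ A := by
  classical
  obtain ⟨p, q, hpq⟩ := hne
  have : Nonempty F := ⟨p⟩
  obtain ⟨x₀, hx₀⟩ := Finite.exists_max a
  -- the stabiliser of `x₀`
  let S : Finset (Equiv.Perm F) := Finset.univ.filter fun g => g ∈ G ∧ g x₀ = x₀
  have hS1 : (1 : Equiv.Perm F) ∈ S := Finset.mem_filter.2 ⟨Finset.mem_univ _, G.one_mem, rfl⟩
  have hScard : 0 < S.card := Finset.card_pos.2 ⟨1, hS1⟩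
  let b : F → ℤ := ∑ g ∈ S, a ∘ g
  have hb : b ∈ A := sum_mem fun g hg => hA g (Finset.mem_filter.1 hg).2.1 a ha
  have hbx : ∀ x, b x = ∑ g ∈ S, a (g x) := fun x => by
    change (∑ g ∈ S, a ∘ g) x = _
    rw [Finset.sum_apply]
    rfl
  have hb0 : b x₀ = S.card * a x₀ := by
    rw [hbx, Finset.sum_congr rfl fun g hg => by rw [(Finset.mem_filter.1 hg).2.2],
      Finset.sum_const, nsmul_eq_mul]
  have hbc : ∀ y z, y ≠ x₀ → z ≠ x₀ → b y = b z := by
    intro y z hy hz
    obtain ⟨h, hhG, hh0, hhy⟩ := hG x₀ y x₀ z hy.symm hz.symm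
    rw [hbx, hbx]
    refine Finset.sum_bij' (fun g _ => g * h⁻¹) (fun g _ => g * h) ?_ ?_ ?_ ?_ ?_
    · intro g hg
      obtain ⟨-, hg1, hg2⟩ := Finset.mem_filter.1 hg
      refine Finset.mem_filter.2 ⟨Finset.mem_univ _, G.mul_mem hg1 (G.inv_mem hhG), ?_⟩
      rw [Equiv.Perm.mul_apply, Equiv.Perm.inv_eq_iff_eq.2 hh0.symm, hg2]
    · intro g hg
      obtain ⟨-, hg1, hg2⟩ := Finset.mem_filter.1 hg
      refine Finset.mem_filter.2 ⟨Finset.mem_univ _, G.mul_mem hg1 hhG, ?_⟩
      rw [Equiv.Perm.mul_apply, hh0, hg2]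
    · intro g _
      simp
    · intro g _
      simp
    · intro g _
      rw [Equiv.Perm.mul_apply, Equiv.Perm.inv_eq_iff_eq.2 hhy.symm]
  obtain ⟨y₀, hy₀⟩ : ∃ y₀, y₀ ≠ x₀ := by
    by_contra h
    push Not at h
    exact hpq (by rw [h p, h q])
  have hsum : ∑ x, b x = S.card * ∑ x, a x := by
    simp only [hbx]
    rw [Finset.sum_comm]
    have h2 : ∀ g ∈ S, ∑ x, a (g x) = ∑ x, a x := fun g _ => Equiv.sum_comp g a
    rw [Finset.sum_congr rfl h2, Finset.sum_const, nsmul_eq_mul]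
  have hlt : b y₀ < b x₀ := by
    by_contra h
    push Not at h
    have h2 : ∀ x, b x₀ ≤ b x := by
      intro x
      by_cases hx : x = x₀
      · rw [hx]
      · rw [hbc x y₀ hx hy₀]
        exact h
    have h3 : ∑ x : F, b x₀ ≤ ∑ x, b x := Finset.sum_le_sum fun x _ => h2 x
    have h4 : ∑ x, a x < ∑ x : F, a x₀ := by
      obtain ⟨z, hz⟩ : ∃ z, a z < a x₀ := by
        by_contra hcon
        push Not at hcon
        exact hpq (le_antisymm ((hx₀ p).trans (hcon q)) ((hx₀ q).trans (hcon p)))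
      exact Finset.sum_lt_sum (fun x _ => hx₀ x) ⟨z, Finset.mem_univ _, hz⟩
    rw [hsum, hb0, ← Finset.mul_sum] at h3
    have h5 : (0 : ℤ) < S.card := by exact_mod_cast hScard
    nlinarith
  refine ⟨x₀, b x₀ - b y₀, by omega, ?_⟩
  have h6 : (Pi.single x₀ (b x₀ - b y₀) : F → ℤ) = b - b y₀ • (fun _ => (1 : ℤ)) := by
    funext x
    by_cases hx : x = x₀
    · subst hx
      rw [Pi.single_eq_same, Pi.sub_apply, Pi.smul_apply, smul_eq_mul, mul_one]
    · rw [Pi.single_eq_of_ne hx, Pi.sub_apply, Pi.smul_apply, smul_eq_mul, mul_one,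
        hbc x y₀ hx hy₀, sub_self]
  rw [h6]
  exact sub_mem hb (AddSubgroup.zsmul_mem _ h1 _)

/-- a transitive group on a prime number of elements has a cycle through all of them -/
theorem exists_cycle (G : Subgroup (Equiv.Perm F)) (hp : (Fintype.card F).Prime)
    (hG : ∀ x y : F, ∃ g ∈ G, g x = y) (x : F) : ∃ g ∈ G, ∀ y, ∃ k < Fintype.card F, (g ^ k) x = y := by
  classical
  have hfact : Fact (Fintype.card F).Prime := ⟨hp⟩
  have hdvd : Fintype.card F ∣ Nat.card G := by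
    have h1 : MulAction.orbit G x = Set.univ := by
      rw [Set.eq_univ_iff_forall]
      intro y
      obtain ⟨g, hg, hgx⟩ := hG x y
      exact ⟨⟨g, hg⟩, hgx⟩
    have h2 := MulAction.card_orbit_mul_card_stabilizer_eq_card_group G x
    rw [← Nat.card_eq_fintype_card, ← Nat.card_eq_fintype_card, ← Nat.card_eq_fintype_card] at h2
    have h3 : Nat.card (MulAction.orbit G x) = Fintype.card F := by
      rw [h1, Nat.card_univ, Nat.card_eq_fintype_card]
    rw [← h2, h3]
    exact dvd_mul_right _ _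
  obtain ⟨⟨g, hg⟩, hgo⟩ := exists_prime_orderOf_dvd_card' (Fintype.card F) hdvd
  have ho : orderOf g = Fintype.card F := by
    rw [← hgo, Subgroup.orderOf_mk]
  have hc : g.IsCycle := Equiv.Perm.isCycle_of_prime_order' (by rw [ho]; exact hp) (by
    rw [ho]
    have := hp.pos
    omega)
  have hsupp : g.support = Finset.univ := by
    rw [← Finset.card_eq_iff_eq_univ, ← hc.orderOf, ho]
  refine ⟨g, hg, fun y => ?_⟩
  have hx : g x ≠ x := Equiv.Perm.mem_support.1 (by rw [hsupp]; exact Finset.mem_univ _)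
  have hy : g y ≠ y := Equiv.Perm.mem_support.1 (by rw [hsupp]; exact Finset.mem_univ _)
  obtain ⟨k, hk, hk2⟩ := (hc.sameCycle hx hy).exists_pow_eq_of_mem_support
    (Equiv.Perm.mem_support.2 hx)
  refine ⟨k, ?_, hk2⟩
  rw [← Finset.card_univ, ← hsupp]
  have h4 : g.cycleOf x = g := hc.cycleOf_eq hx
  rw [h4] at hk
  exact hk

/-- the rational span -/
def span (A : AddSubgroup (F → ℤ)) : Submodule ℚ (F → ℚ) where
  carrier := {v | ∃ n : ℕ, 0 < n ∧ ∃ a ∈ A, ∀ x, (n : ℚ) * v x = a x}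
  zero_mem' := ⟨1, one_pos, 0, A.zero_mem, fun x => by simp⟩
  add_mem' := by
    rintro v w ⟨n, hn, a, ha, hav⟩ ⟨m, hm, b, hb, hbw⟩
    refine ⟨n * m, Nat.mul_pos hn hm, m • a + n • b, add_mem (AddSubgroup.nsmul_mem _ ha m)
      (AddSubgroup.nsmul_mem _ hb n), fun x => ?_⟩
    rw [Pi.add_apply, Pi.add_apply, Pi.smul_apply, Pi.smul_apply]
    push_cast
    rw [nsmul_eq_mul, nsmul_eq_mul]
    push_cast
    rw [← hav, ← hbw]
    ring
  smul_mem' := by
    rintro q v ⟨n, hn, a, ha, hav⟩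
    refine ⟨n * q.den, Nat.mul_pos hn q.den_pos, q.num • a, AddSubgroup.zsmul_mem _ ha _,
      fun x => ?_⟩
    rw [Pi.smul_apply, Pi.smul_apply, smul_eq_mul, smul_eq_mul]
    push_cast
    rw [← hav]
    have h := Rat.mul_den_eq_num q
    calc (n : ℚ) * q.den * (q * v x) = (q * q.den) * (n * v x) := by ring
      _ = _ := by rw [h]

/-- a prime number of elements -/
theorem comb_prime [DecidableEq F] (G : Subgroup (Equiv.Perm F)) (A : AddSubgroup (F → ℤ))
    (hA : ∀ g ∈ G, ∀ a ∈ A, a ∘ g ∈ A) (h1 : (fun _ => (1 : ℤ)) ∈ A) {a : F → ℤ} (ha : a ∈ A)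
    (hne : ∃ x y, a x ≠ a y) (hp : (Fintype.card F).Prime)
    (hG : ∀ x y : F, ∃ g ∈ G, g x = y) :
    ∃ x₀ : F, ∃ n : ℤ, 0 < n ∧ Pi.single x₀ n ∈ A := by
  classical
  obtain ⟨x, y, hxy⟩ := hne
  obtain ⟨g, hg, hgc⟩ := exists_cycle G hp hG x
  obtain ⟨p, hpdef⟩ : ∃ p, p = Fintype.card F := ⟨_, rfl⟩
  rw [← hpdef] at hgc hp
  have hfact : Fact p.Prime := ⟨hp⟩
  let T : Module.End ℚ (F → ℚ) := LinearMap.funLeft ℚ ℚ (g⁻¹ : Equiv.Perm F)
  have hTs : ∀ z, T (Pi.single z 1) = Pi.single (g z) 1 := by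
    intro z
    funext w
    change (Pi.single z (1 : ℚ) : F → ℚ) (g⁻¹ w) = _
    rw [Pi.single_apply, Pi.single_apply]
    congr 1
    rw [eq_iff_iff, Equiv.Perm.inv_eq_iff_eq]
  have hTk : ∀ k, (T ^ k) (Pi.single x 1) = Pi.single ((g ^ k) x) 1 := by
    intro k
    induction k with
    | zero => simp
    | succ k ih =>
      rw [pow_succ', Module.End.mul_apply, ih, hTs, pow_succ', Equiv.Perm.mul_apply]
  have hTV : ∀ v ∈ span A, T v ∈ span A := by
    rintro v ⟨n, hn, b, hb, hbv⟩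
    exact ⟨n, hn, b ∘ (g⁻¹ : Equiv.Perm F), hA _ (G.inv_mem hg) b hb, fun z => hbv _⟩
  have hTq : ∀ (q : ℚ[X]), ∀ v ∈ span A, (aeval T q) v ∈ span A := by
    intro q v hv
    induction q using Polynomial.induction_on' with
    | add q r hq hr =>
      rw [map_add, LinearMap.add_apply]
      exact add_mem hq hr
    | monomial n c =>
      rw [aeval_monomial, Module.End.mul_apply, Module.algebraMap_end_apply]
      refine Submodule.smul_mem _ _ ?_
      induction n with
      | zero => simpa using hv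
      | succ n ih =>
        rw [pow_succ', Module.End.mul_apply]
        exact hTV _ ih
  -- the bijection
  have hbij : Function.Bijective (fun k : Fin p => (g ^ (k : ℕ)) x) := by
    rw [Fintype.bijective_iff_surjective_and_card]
    refine ⟨fun z => ?_, by rw [Fintype.card_fin, hpdef]⟩
    obtain ⟨k, hk, hkz⟩ := hgc z
    exact ⟨⟨k, hk⟩, hkz⟩
  have hpoly : ∀ v : F → ℚ, (aeval T (∑ k ∈ Finset.range p, C (v ((g ^ k) x)) * X ^ k))
      (Pi.single x 1) = v := by
    intro v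
    rw [map_sum, LinearMap.sum_apply, Finset.sum_range]
    have h2 : ∀ k : Fin p, (aeval T (C (v ((g ^ (k : ℕ)) x)) * X ^ (k : ℕ))) (Pi.single x 1) =
        Pi.single ((g ^ (k : ℕ)) x) (v ((g ^ (k : ℕ)) x)) := by
      intro k
      rw [map_mul, aeval_C, map_pow, aeval_X, Module.End.mul_apply, hTk,
        Module.algebraMap_end_apply, ← Pi.single_smul, smul_eq_mul, mul_one]
    rw [Finset.sum_congr rfl fun k _ => h2 k]
    rw [hbij.sum_comp (fun z => (Pi.single z (v z) : F → ℚ))]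
    exact Finset.univ_sum_single v
  let v : F → ℚ := fun z => a z
  have hv : v ∈ span A := ⟨1, one_pos, a, ha, fun z => by simp [v]⟩
  have h1v : (fun _ => (1 : ℚ)) ∈ span A := ⟨1, one_pos, _, h1, fun z => by simp⟩
  obtain ⟨f, hf⟩ : ∃ f : ℚ[X], f = ∑ k ∈ Finset.range p, C (v ((g ^ k) x)) * X ^ k := ⟨_, rfl⟩
  have hfv := hpoly v
  rw [← hf] at hfv
  have hΦv := hpoly (fun _ => 1)
  have hΦ : (∑ k ∈ Finset.range p, C (1 : ℚ) * X ^ k) = cyclotomic p ℚ := by
    rw [cyclotomic_prime]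
    refine Finset.sum_congr rfl fun k _ => ?_
    rw [C_1, one_mul]
  rw [hΦ] at hΦv
  have hirr : Irreducible (cyclotomic p ℚ) := cyclotomic.irreducible_rat hp.pos
  have hcoef : ∀ k < p, f.coeff k = v ((g ^ k) x) := by
    intro k hk
    rw [hf, finsetSum_coeff]
    simp only [coeff_C_mul, coeff_X_pow]
    rw [Finset.sum_eq_single k]
    · simp
    · intro j _ hj
      rw [if_neg (Ne.symm hj), mul_zero]
    · intro h
      exact absurd (Finset.mem_range.2 hk) h
  have hdeg : f.natDegree ≤ p - 1 := by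
    rw [hf]
    refine natDegree_sum_le_of_forall_le _ _ fun k hk => ?_
    have := Finset.mem_range.1 hk
    exact (natDegree_C_mul_X_pow_le _ _).trans (by omega)
  have hnd : ¬ cyclotomic p ℚ ∣ f := by
    rintro ⟨q, hq⟩
    have hcoefΦ : ∀ k < p, (cyclotomic p ℚ).coeff k = 1 := by
      intro k hk
      rw [← hΦ, finsetSum_coeff]
      simp only [coeff_C_mul, coeff_X_pow]
      rw [Finset.sum_eq_single k]
      · simp
      · intro j _ hj
        rw [if_neg (Ne.symm hj), mul_zero]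
      · intro h
        exact absurd (Finset.mem_range.2 hk) h
    have hq0 : q.natDegree = 0 ∨ q = 0 := by
      by_cases hq0 : q = 0
      · exact Or.inr hq0
      left
      have h2 : f.natDegree = (p - 1) + q.natDegree := by
        rw [hq, natDegree_mul (cyclotomic_ne_zero p ℚ) hq0, natDegree_cyclotomic,
          Nat.totient_prime hp]
      omega
    obtain ⟨c, hc⟩ : ∃ c, q = C c := by
      rcases hq0 with h | h
      · exact ⟨_, eq_C_of_natDegree_eq_zero h⟩
      · exact ⟨0, by rw [h, C_0]⟩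
    have h3 : ∀ z, v z = c := by
      intro z
      obtain ⟨k, hk, hkz⟩ := hgc z
      rw [← hkz, ← hcoef k hk, hq, hc, coeff_mul_C, hcoefΦ k hk, one_mul]
    apply hxy
    have h4 : (a x : ℚ) = a y := (h3 x).trans (h3 y).symm
    exact_mod_cast h4
  obtain ⟨u, w, huw⟩ := (hirr.coprime_iff_not_dvd).2 hnd
  have hmem : (Pi.single x 1 : F → ℚ) ∈ span A := by
    have h2 : (Pi.single x 1 : F → ℚ) = (aeval T u) (fun _ => 1) + (aeval T w) v := by
      conv_rhs => rw [← hfv, ← hΦv]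
      rw [← Module.End.mul_apply, ← Module.End.mul_apply, ← LinearMap.add_apply, ← map_mul,
        ← map_mul, ← map_add, huw, map_one]
      rfl
    rw [h2]
    exact add_mem (hTq u _ h1v) (hTq w _ hv)
  obtain ⟨n, hn, b, hb, hbx⟩ := hmem
  refine ⟨x, n, by exact_mod_cast hn, ?_⟩
  have h3 : (Pi.single x (n : ℤ) : F → ℤ) = b := by
    funext z
    have h4 := hbx z
    by_cases hz : z = x
    · subst hz
      rw [Pi.single_eq_same, mul_one] at h4
      rw [Pi.single_eq_same]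
      exact_mod_cast h4
    · rw [Pi.single_eq_of_ne hz, mul_zero] at h4
      rw [Pi.single_eq_of_ne hz]
      exact_mod_cast h4
  rw [h3]
  exact hb

end Pool.Agent.H32.DT
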