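import Pool.Agent.H32.SJ.Defs

/-!
Coverings of surfaces with a doubly transitive monodromy group.
-/

set_option autoImplicit false

open Pool.Agent.N162.BC

namespace Pool.Agent.H32.DT

/-- The Galois group acts doubly transitively on the embeddings of `K` in the algebraic closure of
`K₀`: the monodromy group of the covering `X → Y` of varieties with the function fields `K` and `K₀` is
doubly transitive. -/
def DoublyTransitive (K₀ K : Type) [Field K₀] [Field K] [Algebra K₀ K] : Prop :=
  ∀ σ τ σ' τ' : K →ₐ[K₀] AlgebraicClosure K₀, σ ≠ τ → σ' ≠ τ' →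
    ∃ g : AlgebraicClosure K₀ ≃ₐ[K₀] AlgebraicClosure K₀,
      g.toAlgHom.comp σ = σ' ∧ g.toAlgHom.comp τ = τ'

/-- The points `σ` of the general fibre of the covering `X → Y` of surfaces with the function fields `K`
and `K₀` satisfy a relation other than the trivial ones: there is a zero-cycle `c` supported on the
fibre over a generic point `u` of `Y` such that a multiple of `c` is rationally equivalent to a cycle
supported on a curve in `X`, and the coefficients of `c` at two points of the fibre are different. -/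
def HasRelation (K₀ K : Type) [Field K₀] [Field K] [Algebra ℂ K₀] [Algebra ℂ K] [Algebra K₀ K] :
    Prop :=
  ∃ (Ω : Type) (_ : Field Ω) (_ : Algebra ℂ Ω) (_ : IsAlgClosed Ω) (u : K₀ →ₐ[ℂ] Ω)
    (c : (K →ₐ[ℂ] Ω) →₀ ℤ) (n : ℕ), Algebra.trdeg ℂ Ω = 2 ∧ 0 < n ∧ n • c ∈ Rat K Ω ∧
    (∀ σ ∈ c.support, ∀ a, σ (algebraMap K₀ K a) = u a) ∧
    ∃ σ τ : K →ₐ[ℂ] Ω, (∀ a, σ (algebraMap K₀ K a) = u a) ∧ (∀ a, τ (algebraMap K₀ K a) = u a) ∧
      c σ ≠ c τ

/-- A generically finite dominant rational map `W → Y`: a finite extension of the function field `K₀`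
of `Y`. -/
structure Cover (K₀ : Type) [Field K₀] [Algebra ℂ K₀] where
  W : Type
  [field : Field W]
  [alg : Algebra ℂ W]
  [alg₀ : Algebra K₀ W]
  [tower : IsScalarTower ℂ K₀ W]
  [finite : FiniteDimensional K₀ W]

attribute [instance] Cover.field Cover.alg Cover.alg₀ Cover.tower Cover.finite

end Pool.Agent.H32.DT
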