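import Pool.Agent.H32.SJ.Pull
import Pool.Graph.R_pool_sql_team_seeded_63374d34.N162.BC.Main

/-!
Isomorphisms of the field of definition and rational equivalence.
-/

set_option autoImplicit false
set_option linter.overlappingInstances false
set_option linter.unusedSectionVars false

open FF Pool.Agent.W603.LV Pool.Agent.W602.GT Pool.Agent.N162.BC

namespace Pool.Agent.H32.DT

section

variable {K Ω Ω' M : Type} [Field K] [Algebra ℂ K] [Field Ω] [Algebra ℂ Ω] [Field Ω']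
  [Algebra ℂ Ω'] [Field M] [Algebra Ω M] [Algebra Ω' M]

/-- the places are the same -/
def plIso (g : Ω ≃ₐ[ℂ] Ω') (h : ∀ x, algebraMap Ω' M (g x) = algebraMap Ω M x) :
    Place Ω M ≃ Place Ω' M where
  toFun v :=
    { ord := v.ord
      ord_zero := v.ord_zero
      ord_mul := v.ord_mul
      ord_add := v.ord_add
      ord_const := fun {c} hc => by
        obtain ⟨x, rfl⟩ := g.surjective c
        rw [h]
        exact v.ord_const fun hx => hc (by rw [hx, map_zero])
      surj := v.surj }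
  invFun v :=
    { ord := v.ord
      ord_zero := v.ord_zero
      ord_mul := v.ord_mul
      ord_add := v.ord_add
      ord_const := fun {c} hc => by
        rw [← h]
        exact v.ord_const fun hx => hc ((map_eq_zero g).1 hx)
      surj := v.surj }
  left_inv v := rfl
  right_inv v := rfl

theorem isFF_iso (g : Ω ≃ₐ[ℂ] Ω') (h : ∀ x, algebraMap Ω' M (g x) = algebraMap Ω M x)
    [hF : IsFF Ω M] : IsFF Ω' M := by
  let i1 : Algebra Ω Ω' := (g : Ω →+* Ω').toAlgebra
  have i2 : IsScalarTower Ω Ω' M := IsScalarTower.of_algebraMap_eq fun x => (h x).symm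
  have h1 : Algebra.EssFiniteType Ω M := hF.ess
  have h0 : Algebra.IsAlgebraic Ω Ω' := ⟨fun y => by
    obtain ⟨x, rfl⟩ := g.surjective y
    exact isAlgebraic_algebraMap (R := Ω) (A := Ω') x⟩
  refine ⟨Algebra.EssFiniteType.of_comp Ω Ω' M, ?_⟩
  have h2 := trdeg_add_eq Ω Ω' (A := M)
  rw [trdeg_eq_zero_iff.2 h0, zero_add, hF.trdeg] at h2
  exact h2

/-- isomorphisms of the field of definition preserve rational equivalence -/
theorem rat_iso (g : Ω ≃ₐ[ℂ] Ω') {c : (K →ₐ[ℂ] Ω) →₀ ℤ}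
    (hc : c ∈ Pool.Agent.N162.BC.Rat K Ω) :
    c.mapDomain (AlgEquiv.arrowCongr (AlgEquiv.refl : K ≃ₐ[ℂ] K) g) ∈
      Pool.Agent.N162.BC.Rat K Ω' := by
  have hle : Pool.Agent.N162.BC.Rat K Ω ≤ (Pool.Agent.N162.BC.Rat K Ω').comap
      (Finsupp.mapDomain.addMonoidHom (AlgEquiv.arrowCongr (AlgEquiv.refl : K ≃ₐ[ℂ] K) g)) := by
    conv_lhs => unfold Pool.Agent.N162.BC.Rat
    rw [AddSubgroup.closure_le]
    rintro d ⟨M, hM, a1, hFF, τ, f, hτ, hf0, hd⟩
    let a2 : Algebra Ω' M := ((algebraMap Ω M).comp (g.symm : Ω' →+* Ω)).toAlgebra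
    have ha2 : ∀ x, algebraMap Ω' M (g x) = algebraMap Ω M x := by
      intro x
      change algebraMap Ω M (g.symm (g x)) = _
      rw [AlgEquiv.symm_apply_apply]
    refine AddSubgroup.subset_closure ⟨M, hM, a2, isFF_iso g ha2, τ, f, fun z => ?_, hf0,
      fun σ => ?_⟩
    · rw [hτ, ← ha2, g.commutes]
    · change (d.mapDomain (AlgEquiv.arrowCongr (AlgEquiv.refl : K ≃ₐ[ℂ] K) g)) σ = _
      rw [Finsupp.mapDomain_equiv_apply, hd]
      obtain ⟨ρ, hρ⟩ : ∃ ρ, ρ = (AlgEquiv.arrowCongr (AlgEquiv.refl : K ≃ₐ[ℂ] K) g).symm σ :=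
        ⟨_, rfl⟩
      have hσ : ∀ a, σ a = g (ρ a) := by
        intro a
        rw [hρ]
        change σ a = g (g.symm (σ a))
        rw [AlgEquiv.apply_symm_apply]
      rw [← hρ]
      refine finsum_mem_eq_of_bijOn (plIso g ha2) ⟨fun v hv => ?_, (plIso g ha2).injective.injOn,
        fun w hw => ?_⟩ fun v _ => rfl
      · intro a
        rw [hσ, ha2]
        exact hv a
      · refine ⟨(plIso g ha2).symm w, fun a => ?_, (plIso g ha2).apply_symm_apply w⟩
        have h1 := hw a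
        rw [hσ, ha2] at h1
        exact h1
  exact hle hc

theorem ratT_iso (g : Ω ≃ₐ[ℂ] Ω') {c : (K →ₐ[ℂ] Ω) →₀ ℤ} (hc : c ∈ SJ.RatT K Ω) :
    c.mapDomain (AlgEquiv.arrowCongr (AlgEquiv.refl : K ≃ₐ[ℂ] K) g) ∈ SJ.RatT K Ω' := by
  obtain ⟨n, hn, h⟩ := hc
  refine ⟨n, hn, ?_⟩
  have h1 := rat_iso g h
  rwa [← Finsupp.mapDomain.addMonoidHom_apply, map_nsmul] at h1

end

end Pool.Agent.H32.DT
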