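import Pool.Agent.H32.DT.Comb
import Pool.Agent.H32.DT.Iso
import Pool.Agent.H32.DT.Defs

/-!
Relations between the points of the general fibre of a covering.
-/

set_option autoImplicit false
set_option linter.overlappingInstances false
set_option linter.unusedSectionVars false

open FF Pool.Agent.W603.LV Pool.Agent.W602.GT Pool.Agent.N162.BC Pool.Agent.N162.PR
open Pool.Agent.H32.SJ

namespace Pool.Agent.H32.DT

theorem isAlg_of_trdeg {K Ω : Type} [Field K] [Field Ω] [Algebra ℂ K] [Algebra ℂ Ω] [Algebra K Ω]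
    [IsScalarTower ℂ K Ω] (hK : Algebra.trdeg ℂ K = 2) (hΩ : Algebra.trdeg ℂ Ω = 2) :
    Algebra.IsAlgebraic K Ω := by
  have h1 := trdeg_add_eq ℂ K (A := Ω)
  rw [hK, hΩ] at h1
  refine trdeg_eq_zero_iff.1 ?_
  have h3 : Algebra.trdeg K Ω < Cardinal.aleph0 := by
    by_contra hcon
    push Not at hcon
    have h4 : Algebra.trdeg K Ω ≤ 2 := by
      rw [← h1]
      exact self_le_add_left _ _
    have h5 : (2 : Cardinal.{0}) < Cardinal.aleph0 := by
      exact_mod_cast Cardinal.natCast_lt_aleph0 (n := 2)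
    exact absurd (hcon.trans h4) (not_le.2 h5)
  obtain ⟨n, hn⟩ := Cardinal.lt_aleph0.1 h3
  rw [hn] at h1 ⊢
  have h4 : 2 + n = 2 := by exact_mod_cast h1
  have h5 : n = 0 := by omega
  rw [h5, Nat.cast_zero]

theorem exists_isoΩ {K Ω Ω' : Type} [Field K] [Field Ω] [Field Ω'] [Algebra ℂ K] [Algebra ℂ Ω]
    [Algebra ℂ Ω'] [IsAlgClosed Ω] [IsAlgClosed Ω'] (hK : Algebra.trdeg ℂ K = 2)
    (hΩ : Algebra.trdeg ℂ Ω = 2) (hΩ' : Algebra.trdeg ℂ Ω' = 2) (i : K →ₐ[ℂ] Ω)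
    (i' : K →ₐ[ℂ] Ω') : ∃ g : Ω ≃ₐ[ℂ] Ω', ∀ a, g (i a) = i' a := by
  let a1 : Algebra K Ω := i.toRingHom.toAlgebra
  let a2 : Algebra K Ω' := i'.toRingHom.toAlgebra
  have t1 : IsScalarTower ℂ K Ω := IsScalarTower.of_algebraMap_eq fun z => (i.commutes z).symm
  have t2 : IsScalarTower ℂ K Ω' := IsScalarTower.of_algebraMap_eq fun z => (i'.commutes z).symm
  have h1 := isAlg_of_trdeg hK hΩ
  have h2 := isAlg_of_trdeg hK hΩ'
  have c1 : IsAlgClosure K Ω := ⟨inferInstance, h1⟩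
  have c2 : IsAlgClosure K Ω' := ⟨inferInstance, h2⟩
  let g : Ω ≃ₐ[K] Ω' := IsAlgClosure.equiv K Ω Ω'
  exact ⟨g.restrictScalars ℂ, fun a => g.commutes a⟩

section

variable {K₀ K Ω : Type} [Field K₀] [Field K] [Field Ω] [Algebra ℂ K₀] [Algebra ℂ K] [Algebra ℂ Ω]
  [Algebra K₀ K] [IsScalarTower ℂ K₀ K] [FiniteDimensional K₀ K] [IsAlgClosed Ω]

theorem trdeg_up' (h : Algebra.trdeg ℂ K₀ = 2) : Algebra.trdeg ℂ K = 2 := by
  have h1 := trdeg_add_eq ℂ K₀ (A := K)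
  have h2 : Algebra.IsAlgebraic K₀ K := inferInstance
  rw [h, trdeg_eq_zero_iff.2 h2, add_zero] at h1
  exact h1.symm

theorem two_trans (h0 : Algebra.trdeg ℂ K₀ = 2) (hΩ : Algebra.trdeg ℂ Ω = 2)
    (hG : DoublyTransitive K₀ K) {u : K₀ →ₐ[ℂ] Ω} {σ τ σ' τ' : K →ₐ[ℂ] Ω}
    (h1 : restr K₀ Ω σ = u) (h2 : restr K₀ Ω τ = u) (h3 : restr K₀ Ω σ' = u)
    (h4 : restr K₀ Ω τ' = u) (hne : σ ≠ τ) (hne' : σ' ≠ τ') :
    ∃ g : Ω ≃ₐ[ℂ] Ω, (∀ a, g (u a) = u a) ∧ (∀ a, g (σ a) = σ' a) ∧ (∀ a, g (τ a) = τ' a) := by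
  have htr : Algebra.trdeg ℂ (AlgebraicClosure K₀) = 2 := by
    have h5 := trdeg_add_eq ℂ K₀ (A := AlgebraicClosure K₀)
    have h6 : Algebra.IsAlgebraic K₀ (AlgebraicClosure K₀) := AlgebraicClosure.isAlgebraic K₀
    rw [h0, trdeg_eq_zero_iff.2 h6, add_zero] at h5
    exact h5.symm
  obtain ⟨h, hh⟩ := exists_isoΩ h0 htr hΩ (IsScalarTower.toAlgHom ℂ K₀ (AlgebraicClosure K₀)) u
  have hh' : ∀ a, h (algebraMap K₀ (AlgebraicClosure K₀) a) = u a := hh
  have hpull : ∀ ρ : K →ₐ[ℂ] Ω, restr K₀ Ω ρ = u →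
      ∃ ρ' : K →ₐ[K₀] AlgebraicClosure K₀, ∀ a, h (ρ' a) = ρ a := by
    intro ρ hρ
    refine ⟨{ (h.symm : Ω →ₐ[ℂ] AlgebraicClosure K₀).comp ρ with commutes' := fun a => ?_ },
      fun a => ?_⟩
    · change h.symm (ρ (algebraMap K₀ K a)) = _
      have h5 : ρ (algebraMap K₀ K a) = u a := by
        rw [← hρ]
        rfl
      rw [h5, ← hh', AlgEquiv.symm_apply_apply]
    · change h (h.symm (ρ a)) = _
      rw [AlgEquiv.apply_symm_apply]
  obtain ⟨s, hs⟩ := hpull σ h1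
  obtain ⟨t, ht⟩ := hpull τ h2
  obtain ⟨s', hs'⟩ := hpull σ' h3
  obtain ⟨t', ht'⟩ := hpull τ' h4
  have hst : s ≠ t := by
    rintro rfl
    apply hne
    ext a
    rw [← hs, ht]
  have hst' : s' ≠ t' := by
    rintro rfl
    apply hne'
    ext a
    rw [← hs', ht']
  obtain ⟨g, hg1, hg2⟩ := hG s t s' t' hst hst'
  have hg1' : ∀ a, g (s a) = s' a := fun a => by
    rw [← hg1]
    rfl
  have hg2' : ∀ a, g (t a) = t' a := fun a => by
    rw [← hg2]
    rfl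
  refine ⟨(h.symm.trans (g.restrictScalars ℂ)).trans h, fun a => ?_, fun a => ?_, fun a => ?_⟩
  · change h (g (h.symm (u a))) = _
    rw [← hh', AlgEquiv.symm_apply_apply, g.commutes]
  · change h (g (h.symm (σ a))) = _
    rw [← hs, AlgEquiv.symm_apply_apply, hg1', hs']
  · change h (g (h.symm (τ a))) = _
    rw [← ht, AlgEquiv.symm_apply_apply, hg2', ht']

/-- **The key lemma.** -/
theorem key (h0 : Algebra.trdeg ℂ K₀ = 2) (hΩ : Algebra.trdeg ℂ Ω = 2)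
    (hG : DoublyTransitive K₀ K ∨ (Module.finrank K₀ K).Prime) {u : K₀ →ₐ[ℂ] Ω}
    (A : AddSubgroup ((K →ₐ[ℂ] Ω) →₀ ℤ))
    (hA : ∀ g : Ω ≃ₐ[ℂ] Ω, ∀ c ∈ A,
      c.mapDomain (AlgEquiv.arrowCongr (AlgEquiv.refl : K ≃ₐ[ℂ] K) g) ∈ A)
    (hdiv : ∀ n : ℕ, 0 < n → ∀ c, n • c ∈ A → c ∈ A)
    (h1 : liftC K (Finsupp.single u (1 : ℤ)) ∈ A) {c : (K →ₐ[ℂ] Ω) →₀ ℤ} (hc : c ∈ A)
    (hsupp : ∀ σ ∈ c.support, restr K₀ Ω σ = u)
    (hne : ∃ σ τ : K →ₐ[ℂ] Ω, restr K₀ Ω σ = u ∧ restr K₀ Ω τ = u ∧ c σ ≠ c τ)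
    (σ : K →ₐ[ℂ] Ω) (hσ : restr K₀ Ω σ = u) : Finsupp.single σ (1 : ℤ) ∈ A := by
  classical
  obtain ⟨S, hS, hcard, -⟩ := exists_fib (K' := K) u
  let F : Type := {σ : K →ₐ[ℂ] Ω // σ ∈ S}
  have hF : ∀ x : F, restr K₀ Ω x.1 = u := fun x => (hS _).1 x.2
  have hcardF : Fintype.card F = Module.finrank K₀ K := by
    rw [← hcard]
    exact Fintype.card_coe S
  -- the extension by zero
  let ext : (F → ℤ) →+ ((K →ₐ[ℂ] Ω) →₀ ℤ) :=
    ∑ x : F, (Finsupp.singleAddHom x.1).comp (Pi.evalAddMonoidHom (fun _ : F => ℤ) x)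
  have hext : ∀ a, ext a = ∑ x : F, Finsupp.single x.1 (a x) := by
    intro a
    change (∑ x : F, (Finsupp.singleAddHom x.1).comp (Pi.evalAddMonoidHom (fun _ : F => ℤ) x)) a = _
    rw [AddMonoidHom.finsetSum_apply]
    rfl
  have hextc : ∀ d : (K →ₐ[ℂ] Ω) →₀ ℤ, (∀ σ ∈ d.support, restr K₀ Ω σ = u) →
      ext (fun x => d x.1) = d := by
    intro d hd
    rw [hext, Finset.univ_eq_attach, Finset.sum_attach S fun τ => Finsupp.single τ (d τ)]
    ext τ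
    rw [Finset.sum_apply']
    simp only [Finsupp.single_apply]
    rw [Finset.sum_ite_eq' S τ]
    split_ifs with h
    · rfl
    · by_contra hcon
      exact h ((hS τ).2 (hd τ (Finsupp.mem_support_iff.2 fun h0 => hcon h0.symm)))
  let mk (g : Ω ≃ₐ[ℂ] Ω) : (K →ₐ[ℂ] Ω) ≃ (K →ₐ[ℂ] Ω) :=
    AlgEquiv.arrowCongr (AlgEquiv.refl : K ≃ₐ[ℂ] K) g
  have hmk : ∀ g τ a, mk g τ a = g (τ a) := fun g τ a => rfl
  let G : Subgroup (Equiv.Perm F) :=
    { carrier := {π | ∃ g : Ω ≃ₐ[ℂ] Ω, ∀ x : F, mk g x.1 = (π x).1}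
      one_mem' := ⟨AlgEquiv.refl, fun x => by
        ext a
        rw [hmk]
        rfl⟩
      mul_mem' := by
        rintro π ρ ⟨g, hg⟩ ⟨h, hh⟩
        refine ⟨h.trans g, fun x => ?_⟩
        rw [Equiv.Perm.mul_apply, ← hg, ← hh]
        rfl
      inv_mem' := by
        rintro π ⟨g, hg⟩
        refine ⟨g.symm, fun x => ?_⟩
        have h2 := hg (π⁻¹ x)
        rw [show π (π⁻¹ x) = x from π.apply_symm_apply x] at h2
        rw [← h2]
        ext a
        rw [hmk, hmk, AlgEquiv.symm_apply_apply] }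
  have hGA : ∀ π ∈ G, ∀ a ∈ A.comap ext, a ∘ π ∈ A.comap ext := by
    rintro π hπ a ha
    obtain ⟨g, hg⟩ := G.inv_mem hπ
    rw [AddSubgroup.mem_comap] at ha ⊢
    have h2 : ext (a ∘ π) = (ext a).mapDomain (mk g) := by
      rw [hext, hext, ← Finsupp.mapDomain.addMonoidHom_apply, map_sum]
      simp only [Finsupp.mapDomain.addMonoidHom_apply, Finsupp.mapDomain_single, hg]
      have h3 := Equiv.sum_comp π (fun x : F => Finsupp.single (π⁻¹ x).1 (a x))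
      rw [← h3]
      refine Finset.sum_congr rfl fun x _ => ?_
      rw [show π⁻¹ (π x) = x from π.symm_apply_apply x]
      rfl
    rw [h2]
    exact hA g _ ha
  have hone : (fun _ => (1 : ℤ)) ∈ A.comap ext := by
    rw [AddSubgroup.mem_comap]
    have h2 : ext (fun _ => 1) = liftC K (Finsupp.single u (1 : ℤ)) := by
      rw [← hextc (liftC K (Finsupp.single u (1 : ℤ)))]
      · congr 1
        funext x
        rw [liftC_apply, hF, Finsupp.single_eq_same]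
      · intro τ hτ
        rw [Finsupp.mem_support_iff, liftC_apply, Finsupp.single_apply] at hτ
        by_contra h
        exact hτ (if_neg fun h' => h h'.symm)
    rw [h2]
    exact h1
  have hcA : (fun x : F => c x.1) ∈ A.comap ext := by
    rw [AddSubgroup.mem_comap, hextc c hsupp]
    exact hc
  have hneF : ∃ x y : F, c x.1 ≠ c y.1 := by
    obtain ⟨τ, τ', h2, h3, h4⟩ := hne
    exact ⟨⟨τ, (hS τ).2 h2⟩, ⟨τ', (hS τ').2 h3⟩, h4⟩
  -- transitivity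
  have hpt : ∀ g : Ω ≃ₐ[ℂ] Ω, (∀ a, g (u a) = u a) → ∃ π ∈ G, ∀ x : F, mk g x.1 = (π x).1 := by
    intro g hg
    have h2 : ∀ τ, restr K₀ Ω τ = u → restr K₀ Ω (mk g τ) = u := by
      intro τ hτ
      ext a
      rw [restr_apply, hmk, ← restr_apply, hτ, hg]
    have h3 : ∀ τ, restr K₀ Ω τ = u → restr K₀ Ω (mk g.symm τ) = u := by
      intro τ hτ
      ext a
      rw [restr_apply, hmk, ← restr_apply, hτ]
      rw [AlgEquiv.symm_apply_eq, hg]
    let π : Equiv.Perm F :=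
      { toFun := fun x => ⟨mk g x.1, (hS _).2 (h2 _ (hF x))⟩
        invFun := fun x => ⟨mk g.symm x.1, (hS _).2 (h3 _ (hF x))⟩
        left_inv := fun x => Subtype.ext (by
          ext a
          change g.symm (g (x.1 a)) = x.1 a
          rw [AlgEquiv.symm_apply_apply])
        right_inv := fun x => Subtype.ext (by
          ext a
          change g (g.symm (x.1 a)) = x.1 a
          rw [AlgEquiv.apply_symm_apply]) }
    exact ⟨π, ⟨g, fun x => rfl⟩, fun x => rfl⟩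
  have htrans : ∀ x y : F, ∃ π ∈ G, π x = y := by
    intro x y
    obtain ⟨g, hg⟩ := exists_isoΩ (trdeg_up' (K := K) h0) hΩ hΩ x.1 y.1
    have h2 : ∀ a, g (u a) = u a := by
      intro a
      have h3 : x.1 (algebraMap K₀ K a) = u a := by
        rw [← hF x]
        rfl
      have h4 : y.1 (algebraMap K₀ K a) = u a := by
        rw [← hF y]
        rfl
      rw [← h3, hg, h4, h3]
    obtain ⟨π, hπ, hπx⟩ := hpt g h2
    refine ⟨π, hπ, Subtype.ext ?_⟩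
    rw [← hπx]
    ext a
    rw [hmk, hg]
  have hmain : ∃ x₀ : F, ∃ n : ℤ, 0 < n ∧ Pi.single x₀ n ∈ A.comap ext := by
    rcases hG with hG | hG
    · refine comb_two G (A.comap ext) hGA hone hcA hneF fun x y x' y' hxy hxy' => ?_
      obtain ⟨g, hg1, hg2, hg3⟩ := two_trans h0 hΩ hG (hF x) (hF y) (hF x') (hF y')
        (fun h => hxy (Subtype.ext h)) (fun h => hxy' (Subtype.ext h))
      obtain ⟨π, hπ, hπx⟩ := hpt g hg1
      refine ⟨π, hπ, Subtype.ext ?_, Subtype.ext ?_⟩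
      · rw [← hπx]
        ext a
        rw [hmk, hg2]
      · rw [← hπx]
        ext a
        rw [hmk, hg3]
    · exact comb_prime G (A.comap ext) hGA hone hcA hneF (by rw [hcardF]; exact hG) htrans
  obtain ⟨x₀, n, hn, hx₀⟩ := hmain
  have hx₀' : Finsupp.single x₀.1 (1 : ℤ) ∈ A := by
    refine hdiv n.toNat (by omega) _ ?_
    rw [AddSubgroup.mem_comap, hext, Finset.sum_eq_single x₀] at hx₀
    · rw [Pi.single_eq_same] at hx₀
      rw [Finsupp.smul_single, nsmul_eq_mul, mul_one]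
      have h2 : ((n.toNat : ℕ) : ℤ) = n := Int.toNat_of_nonneg hn.le
      rw [h2]
      exact hx₀
    · intro x _ hx
      rw [Pi.single_eq_of_ne hx, Finsupp.single_zero]
    · intro h
      exact absurd (Finset.mem_univ _) h
  obtain ⟨g, hg⟩ := exists_isoΩ (trdeg_up' (K := K) h0) hΩ hΩ x₀.1 σ
  have h2 := hA g _ hx₀'
  rw [Finsupp.mapDomain_single] at h2
  have h3 : AlgEquiv.arrowCongr (AlgEquiv.refl : K ≃ₐ[ℂ] K) g x₀.1 = σ := by
    ext a
    exact hg a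
  rwa [h3] at h2

end

end Pool.Agent.H32.DT
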