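import Pool.Agent.H32.DT.Key
import Pool.Agent.H32.SJ.Main

/-!
Coverings with a doubly transitive monodromy group: reducible fibre products.
-/

set_option autoImplicit false
set_option linter.overlappingInstances false
set_option linter.unusedSectionVars false

open FF Pool.Agent.W603.LV Pool.Agent.W602.GT Pool.Agent.N162.BC Pool.Agent.N162.PR
open Pool.Agent.H32.SJ
open scoped TensorProduct

namespace Pool.Agent.H32.DT

/-- a component of a reducible fibre product -/
theorem exists_component {K₀ K W : Type} [Field K₀] [Field K] [Field W] [Algebra ℂ K₀]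
    [Algebra ℂ K] [Algebra ℂ W] [Algebra K₀ K] [Algebra K₀ W] [IsScalarTower ℂ K₀ K]
    [IsScalarTower ℂ K₀ W] [FiniteDimensional K₀ K] [FiniteDimensional K₀ W]
    (hred : ¬ IsField (K ⊗[K₀] W)) :
    ∃ (N : Type) (_ : Field N) (_ : Algebra ℂ N) (_ : Algebra K N) (_ : Algebra W N)
      (_ : IsScalarTower ℂ K N) (_ : IsScalarTower ℂ W N) (_ : FiniteDimensional K N)
      (_ : FiniteDimensional W N),
      (∀ a : K₀, algebraMap K N (algebraMap K₀ K a) = algebraMap W N (algebraMap K₀ W a)) ∧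
      Module.finrank W N < Module.finrank K₀ K := by
  classical
  obtain ⟨N, i0, q, hq, hq0⟩ : ∃ (N : Type) (_ : Field N) (q : (K ⊗[K₀] W) →+* N),
      Function.Surjective q ∧ ∃ x, x ≠ 0 ∧ q x = 0 := by
    obtain ⟨m, hm⟩ := Ideal.exists_maximal (K ⊗[K₀] W)
    have hm0 : m ≠ ⊥ := Ring.ne_bot_of_isMaximal_of_not_isField hm hred
    obtain ⟨x, hx, hx0⟩ := Submodule.exists_mem_ne_zero_of_ne_bot hm0
    exact ⟨(K ⊗[K₀] W) ⧸ m, Ideal.Quotient.field m, Ideal.Quotient.mk m,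
      Ideal.Quotient.mk_surjective, x, hx0, Ideal.Quotient.eq_zero_iff_mem.2 hx⟩
  let iK : K →+* N := q.comp (Algebra.TensorProduct.includeLeft : K →ₐ[K₀] K ⊗[K₀] W).toRingHom
  let iW : W →+* N := q.comp (Algebra.TensorProduct.includeRight : W →ₐ[K₀] K ⊗[K₀] W).toRingHom
  have hbase : ∀ a : K₀, iK (algebraMap K₀ K a) = iW (algebraMap K₀ W a) := by
    intro a
    change q ((Algebra.TensorProduct.includeLeft : K →ₐ[K₀] K ⊗[K₀] W)
      (algebraMap K₀ K a)) = q ((Algebra.TensorProduct.includeRight :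
        W →ₐ[K₀] K ⊗[K₀] W) (algebraMap K₀ W a))
    rw [AlgHom.commutes, AlgHom.commutes]
  let aK : Algebra K N := iK.toAlgebra
  let aW : Algebra W N := iW.toAlgebra
  let aC : Algebra ℂ N := (iK.comp (algebraMap ℂ K)).toAlgebra
  let a0 : Algebra K₀ N := (iK.comp (algebraMap K₀ K)).toAlgebra
  have t1 : IsScalarTower ℂ K N := IsScalarTower.of_algebraMap_eq fun z => rfl
  have t2 : IsScalarTower ℂ W N := IsScalarTower.of_algebraMap_eq fun z => by
    change iK (algebraMap ℂ K z) = iW (algebraMap ℂ W z)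
    rw [IsScalarTower.algebraMap_apply ℂ K₀ K, IsScalarTower.algebraMap_apply ℂ K₀ W, hbase]
  have t3 : IsScalarTower K₀ K N := IsScalarTower.of_algebraMap_eq fun z => rfl
  have t4 : IsScalarTower K₀ W N := IsScalarTower.of_algebraMap_eq fun z => by
    change iK (algebraMap K₀ K z) = iW (algebraMap K₀ W z)
    rw [hbase]
  let f : (K ⊗[K₀] W) →ₗ[K₀] N :=
    { toFun := q
      map_add' := fun a b => map_add _ a b
      map_smul' := fun a b => by
        rw [Algebra.smul_def, map_mul, RingHom.id_apply, Algebra.smul_def]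
        rfl }
  have hf : Function.Surjective f := hq
  have hfin : FiniteDimensional K₀ N := Module.Finite.of_surjective f hf
  have hfK : FiniteDimensional K N := Module.Finite.of_restrictScalars_finite K₀ K _
  have hfW : FiniteDimensional W N := Module.Finite.of_restrictScalars_finite K₀ W _
  refine ⟨N, i0, aC, aK, aW, t1, t2, hfK, hfW, hbase, ?_⟩
  have h1 := LinearMap.finrank_range_add_finrank_ker f
  rw [LinearMap.range_eq_top.2 hf, finrank_top, Module.finrank_tensorProduct] at h1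
  have h2 : 0 < Module.finrank K₀ (LinearMap.ker f) := by
    obtain ⟨x, hx0, hx⟩ := hq0
    have : Nontrivial (LinearMap.ker f) :=
      ⟨⟨⟨x, LinearMap.mem_ker.2 hx⟩, 0, fun h => hx0 (congrArg Subtype.val h)⟩⟩
    exact Module.finrank_pos
  have h3 := Module.finrank_mul_finrank K₀ W N
  have h4 : Module.finrank K₀ W * Module.finrank W N <
      Module.finrank K₀ W * Module.finrank K₀ K := by
    rw [h3, mul_comm (Module.finrank K₀ W) (Module.finrank K₀ K)]
    omega
  exact lt_of_mul_lt_mul_left h4 (Nat.zero_le _)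

section

variable {K W N Ω : Type} [Field K] [Field W] [Field N] [Field Ω] [Algebra ℂ K] [Algebra ℂ W]
  [Algebra ℂ N] [Algebra ℂ Ω] [Algebra K N] [Algebra W N] [IsScalarTower ℂ K N]
  [IsScalarTower ℂ W N] [FiniteDimensional K N] [FiniteDimensional W N] [IsAlgClosed Ω]

theorem phi_single (w : W →ₐ[ℂ] Ω) : ∃ S : Finset (N →ₐ[ℂ] Ω), (∀ ν, ν ∈ S ↔ restr W Ω ν = w) ∧
    S.card = Module.finrank W N ∧
    Phi N K (Finsupp.single w (1 : ℤ)) = ∑ ν ∈ S, Finsupp.single (restr K Ω ν) 1 := by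
  classical
  obtain ⟨S, hS, hcard, -⟩ := exists_fib (K' := N) w
  refine ⟨S, hS, hcard, ?_⟩
  have h2 : liftC N (Finsupp.single w (1 : ℤ)) = ∑ ν ∈ S, Finsupp.single ν 1 := by
    ext ν
    rw [liftC_apply, Finset.sum_apply']
    simp only [Finsupp.single_apply]
    rw [Finset.sum_ite_eq' S ν]
    by_cases hν : ν ∈ S
    · rw [if_pos hν, if_pos ((hS ν).1 hν).symm]
    · rw [if_neg hν, if_neg fun h => hν ((hS ν).2 h.symm)]
  change pushC K (liftC N (Finsupp.single w 1)) = _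
  rw [h2, map_sum]
  refine Finset.sum_congr rfl fun ν _ => ?_
  rw [pushC_apply, Finsupp.mapDomain_single]

variable {K₀ : Type} [Field K₀] [Algebra ℂ K₀] [Algebra K₀ K] [Algebra K₀ W]
  [IsScalarTower ℂ K₀ K] [IsScalarTower ℂ K₀ W] [FiniteDimensional K₀ K] [FiniteDimensional K₀ W]

/-- the correspondence through a component of the fibre product is not constant on the fibre -/
theorem phi_fibre
    (hbase : ∀ a : K₀, algebraMap K N (algebraMap K₀ K a) = algebraMap W N (algebraMap K₀ W a))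
    (hlt : Module.finrank W N < Module.finrank K₀ K) (w : W →ₐ[ℂ] Ω) {u : K₀ →ₐ[ℂ] Ω}
    (hw : restr K₀ Ω w = u) :
    (∀ σ ∈ (Phi N K (Finsupp.single w (1 : ℤ))).support, restr K₀ Ω σ = u) ∧
    ∃ σ τ : K →ₐ[ℂ] Ω, restr K₀ Ω σ = u ∧ restr K₀ Ω τ = u ∧
      Phi N K (Finsupp.single w (1 : ℤ)) σ ≠ Phi N K (Finsupp.single w (1 : ℤ)) τ := by
  classical
  obtain ⟨S, hS, hcard, hphi⟩ := phi_single (K := K) (N := N) w
  have hres : ∀ ν ∈ S, restr K₀ Ω (restr K Ω ν) = u := by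
    intro ν hν
    rw [← hw, ← (hS ν).1 hν]
    ext a
    rw [restr_apply, restr_apply, restr_apply, restr_apply, hbase]
  have hsupp : ∀ σ ∈ (Phi N K (Finsupp.single w (1 : ℤ))).support, restr K₀ Ω σ = u := by
    intro σ hσ
    rw [Finsupp.mem_support_iff, hphi, Finset.sum_apply'] at hσ
    obtain ⟨ν, hν, h⟩ := Finset.exists_ne_zero_of_sum_ne_zero hσ
    rw [Finsupp.single_apply] at h
    have h2 : restr K Ω ν = σ := by
      by_contra hcon
      exact h (if_neg hcon)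
    rw [← h2]
    exact hres ν hν
  refine ⟨hsupp, ?_⟩
  by_contra hcon
  push Not at hcon
  obtain ⟨SF, hSF, hSFcard, -⟩ := exists_fib (K' := K) u
  have hpos : 0 < Module.finrank K₀ K := Module.finrank_pos
  obtain ⟨σ₀, hσ₀⟩ : SF.Nonempty := Finset.card_pos.1 (by rw [hSFcard]; exact hpos)
  have h1 : ∑ σ ∈ SF, Phi N K (Finsupp.single w (1 : ℤ)) σ =
      Module.finrank K₀ K * Phi N K (Finsupp.single w (1 : ℤ)) σ₀ := by
    rw [Finset.sum_congr rfl fun σ hσ => hcon σ σ₀ ((hSF σ).1 hσ) ((hSF σ₀).1 hσ₀),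
      Finset.sum_const, hSFcard, nsmul_eq_mul]
  have h2 : ∑ σ ∈ SF, Phi N K (Finsupp.single w (1 : ℤ)) σ = Module.finrank W N := by
    rw [hphi]
    simp only [Finset.sum_apply', Finsupp.single_apply]
    rw [Finset.sum_comm]
    have h3 : ∀ ν ∈ S, (∑ σ ∈ SF, if restr K Ω ν = σ then (1 : ℤ) else 0) = 1 := by
      intro ν hν
      rw [Finset.sum_ite_eq SF, if_pos ((hSF _).2 (hres ν hν))]
    rw [Finset.sum_congr rfl h3, Finset.sum_const, hcard, nsmul_eq_mul, mul_one]
  have h3 : 0 < Module.finrank W N := Module.finrank_pos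
  rw [h1] at h2
  have h4 : (Module.finrank K₀ K : ℤ) ∣ Module.finrank W N := ⟨_, h2.symm⟩
  have h5 : Module.finrank K₀ K ∣ Module.finrank W N := by exact_mod_cast h4
  exact absurd (Nat.le_of_dvd h3 h5) (by omega)

end

section

variable {K₀ K : Type} [Field K₀] [Field K] [Algebra ℂ K₀] [Algebra ℂ K]
  [Algebra K₀ K] [IsScalarTower ℂ K₀ K] [FiniteDimensional K₀ K]

theorem degenerate_down (h : Degenerate K) : Degenerate K₀ := by
  intro Ω _ _ _ hΩ u
  obtain ⟨S, hS, hcard, -⟩ := exists_fib (K' := K) u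
  have hpos : 0 < Module.finrank K₀ K := Module.finrank_pos
  obtain ⟨σ, hσ⟩ : S.Nonempty := Finset.card_pos.1 (by rw [hcard]; exact hpos)
  have h1 : Finsupp.single σ (1 : ℤ) ∈ RatT K Ω := h Ω hΩ σ
  have h2 := push_mem (K := K₀) h1
  rw [pushC_apply, Finsupp.mapDomain_single, (hS σ).1 hσ] at h2
  exact h2

theorem degenerate_of_relation (h0 : Algebra.trdeg ℂ K₀ = 2)
    (hG : DoublyTransitive K₀ K ∨ (Module.finrank K₀ K).Prime) (hd : Degenerate K₀)
    (hr : HasRelation K₀ K) : Degenerate K := by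
  obtain ⟨Ω, i1, i2, i3, u, c, n, hΩ, hn, hc, hsupp, σ, τ, hσ, hτ, hne⟩ := hr
  intro Ω' _ _ _ hΩ' σ'
  have hrest : ∀ ρ : K →ₐ[ℂ] Ω, (∀ a, ρ (algebraMap K₀ K a) = u a) → restr K₀ Ω ρ = u := by
    intro ρ hρ
    ext a
    exact hρ a
  have h1 : Finsupp.single σ (1 : ℤ) ∈ RatT K Ω := by
    refine key h0 hΩ hG (u := u) (RatT K Ω) (fun g c hc => ratT_iso g hc)
      (fun n hn c hc => RatT_of_nsmul hn hc) ?_ (c := c) ⟨n, hn, hc⟩
      (fun ρ hρ => hrest ρ (hsupp ρ hρ)) ⟨σ, τ, hrest σ hσ, hrest τ hτ, hne⟩ σ (hrest σ hσ)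
    exact lift_mem (hd Ω hΩ u)
  obtain ⟨g, hg⟩ := exists_isoΩ (trdeg_up' (K := K) h0) hΩ hΩ' σ σ'
  have h2 := ratT_iso g h1
  rw [Finsupp.mapDomain_single] at h2
  have h3 : AlgEquiv.arrowCongr (AlgEquiv.refl : K ≃ₐ[ℂ] K) g σ = σ' := by
    ext a
    exact hg a
  rw [h3] at h2
  exact h2

theorem relation_of_degenerate (h0 : Algebra.trdeg ℂ K₀ = 2) (hd : 2 ≤ Module.finrank K₀ K)
    (h : Degenerate K) : HasRelation K₀ K := by
  have hcK : CharZero K₀ := charZero_of_injective_algebraMap (algebraMap ℂ K₀).injective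
  have htr : Algebra.trdeg ℂ (AlgebraicClosure K₀) = 2 := by
    have h5 := trdeg_add_eq ℂ K₀ (A := AlgebraicClosure K₀)
    have h6 : Algebra.IsAlgebraic K₀ (AlgebraicClosure K₀) := AlgebraicClosure.isAlgebraic K₀
    rw [h0, trdeg_eq_zero_iff.2 h6, add_zero] at h5
    exact h5.symm
  obtain ⟨S, hS, hcard, -⟩ := exists_fib (K' := K)
    (IsScalarTower.toAlgHom ℂ K₀ (AlgebraicClosure K₀))
  obtain ⟨σ, hσ, τ, hτ, hne⟩ := Finset.one_lt_card.1 (show 1 < S.card by rw [hcard]; omega)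
  obtain ⟨n, hn, hc⟩ := h (AlgebraicClosure K₀) htr σ
  have happ : ∀ ρ ∈ S, ∀ a, ρ (algebraMap K₀ K a) =
      (IsScalarTower.toAlgHom ℂ K₀ (AlgebraicClosure K₀)) a := by
    intro ρ hρ a
    rw [← (hS ρ).1 hρ]
    rfl
  refine ⟨AlgebraicClosure K₀, inferInstance, inferInstance, inferInstance, _,
    Finsupp.single σ 1, n, htr, hn, hc, fun ρ hρ => ?_, σ, τ, happ σ hσ, happ τ hτ, ?_⟩
  · have h1 : ρ = σ := by
      classical
      by_contra hcon
      rw [Finsupp.mem_support_iff, Finsupp.single_apply, if_neg (Ne.symm hcon)] at hρ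
      exact hρ rfl
    rw [h1]
    exact happ σ hσ
  · classical
    rw [Finsupp.single_eq_same, Finsupp.single_apply, if_neg hne]
    exact one_ne_zero

theorem degenerate_of_cover (h0 : Algebra.trdeg ℂ K₀ = 2)
    (hG : DoublyTransitive K₀ K ∨ (Module.finrank K₀ K).Prime) {W : Type} [Field W] [Algebra ℂ W]
    [Algebra K₀ W] [IsScalarTower ℂ K₀ W] [FiniteDimensional K₀ W]
    (hred : ¬ IsField (K ⊗[K₀] W)) (hW : Degenerate W) : Degenerate K := by
  obtain ⟨N, i1, i2, i3, i4, t1, t2, f1, f2, hbase, hlt⟩ := exists_component hred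
  intro Ω _ _ _ hΩ σ
  obtain ⟨u, hu⟩ : ∃ u, u = restr K₀ Ω σ := ⟨_, rfl⟩
  obtain ⟨S, hS, hcard, -⟩ := exists_fib (K' := W) u
  have hpos : 0 < Module.finrank K₀ W := Module.finrank_pos
  obtain ⟨w, hw⟩ : S.Nonempty := Finset.card_pos.1 (by rw [hcard]; exact hpos)
  have hw' := (hS w).1 hw
  have h1 : Finsupp.single w (1 : ℤ) ∈ RatT W Ω := hW Ω hΩ w
  have h2 : Finsupp.single u (1 : ℤ) ∈ RatT K₀ Ω := by
    have h3 := push_mem (K := K₀) h1
    rwa [pushC_apply, Finsupp.mapDomain_single, hw'] at h3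
  obtain ⟨h3, h4⟩ := phi_fibre hbase hlt w hw'
  have h5 : Phi N K (Finsupp.single w (1 : ℤ)) ∈ RatT K Ω := Phi_mem h1
  exact key h0 hΩ hG (u := u) (RatT K Ω) (fun g c hc => ratT_iso g hc)
    (fun n hn c hc => RatT_of_nsmul hn hc) (lift_mem h2) h5 h3 h4 σ hu.symm

/-- the fibre product of a covering with itself is reducible -/
theorem self_reducible (hd : 2 ≤ Module.finrank K₀ K) : ¬ IsField (K ⊗[K₀] K) := by
  intro hfield
  let _ : Field (K ⊗[K₀] K) := hfield.toField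
  let f : K ⊗[K₀] K →ₐ[K₀] K := Algebra.TensorProduct.lmul' K₀
  have h1 : Function.Injective f := (f : K ⊗[K₀] K →+* K).injective
  have h2 := LinearMap.finrank_le_finrank_of_injective (f := f.toLinearMap) h1
  rw [Module.finrank_tensorProduct] at h2
  nlinarith

end

end Pool.Agent.H32.DT
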