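import Pool.Agent.H32.DT.Main

/-!
Coverings with a doubly transitive monodromy group: canonical forms.
-/

set_option autoImplicit false
set_option linter.overlappingInstances false
set_option linter.unusedSectionVars false

open FF Pool.Agent.W603.LV Pool.Agent.W602.GT Pool.Agent.N162.BC Pool.Agent.N162.PR
open Pool.Agent.Y172 Pool.Agent.H32.SJ
open scoped TensorProduct

namespace Pool.Agent.H32.DT

section

variable {K Ω : Type} [Field K] [Algebra ℂ K] [Field Ω] [Algebra ℂ Ω]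

/-- the conjugate of a derivation -/
def conjDer (g : Ω ≃ₐ[ℂ] Ω) (D : Derivation ℂ Ω Ω) : Derivation ℂ Ω Ω where
  toFun x := g.symm (D (g x))
  map_add' x y := by rw [map_add, map_add, map_add]
  map_smul' c x := by
    rw [map_smul, D.map_smul, map_smul, RingHom.id_apply]
  map_one_eq_zero' := by
    change g.symm (D (g 1)) = 0
    rw [map_one, D.map_one_eq_zero, map_zero]
  leibniz' x y := by
    change g.symm (D (g (x * y))) = x • g.symm (D (g y)) + y • g.symm (D (g x))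
    rw [map_mul, D.leibniz, map_add, smul_eq_mul, smul_eq_mul, map_mul, map_mul,
      AlgEquiv.symm_apply_apply, AlgEquiv.symm_apply_apply]
    rfl

theorem conjDer_apply (g : Ω ≃ₐ[ℂ] Ω) (D : Derivation ℂ Ω Ω) (x : Ω) :
    conjDer g D x = g.symm (D (g x)) := rfl

theorem pullback_conj (g : Ω ≃ₐ[ℂ] Ω) (σ : K →ₐ[ℂ] Ω) (z : Fin 2 → K)
    (E : Fin 2 → Derivation ℂ K K) (ω : (Fin 2 → Derivation ℂ K K) → K)
    (D : Fin 2 → Derivation ℂ Ω Ω) :
    pullback (AlgEquiv.arrowCongr (AlgEquiv.refl : K ≃ₐ[ℂ] K) g σ) z E ω D =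
      g (pullback σ z E ω fun i => conjDer g (D i)) := by
  have h1 : ∀ a, AlgEquiv.arrowCongr (AlgEquiv.refl : K ≃ₐ[ℂ] K) g σ a = g (σ a) := fun a => rfl
  unfold pullback
  rw [map_mul, h1]
  congr 1
  rw [← AlgEquiv.coe_ringEquiv, ← RingEquiv.coe_toRingHom, RingHom.map_det]
  congr 1
  ext i j
  rw [RingHom.mapMatrix_apply, Matrix.map_apply, Matrix.of_apply, Matrix.of_apply, h1,
    conjDer_apply]
  change _ = g (g.symm (D i (g (σ (z j)))))
  rw [AlgEquiv.apply_symm_apply]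

/-- the zero-cycles on which the trace of a form is zero -/
noncomputable def nullForm (z : Fin 2 → K) (E : Fin 2 → Derivation ℂ K K)
    (ω : (Fin 2 → Derivation ℂ K K) → K) : AddSubgroup ((K →ₐ[ℂ] Ω) →₀ ℤ) where
  carrier := {c | ∀ D : Fin 2 → Derivation ℂ Ω Ω, tr z E ω D c = 0}
  zero_mem' := fun D => map_zero _
  add_mem' := fun {a b} ha hb D => by rw [map_add, ha, hb, add_zero]
  neg_mem' := fun {a} ha D => by rw [map_neg, ha, neg_zero]

theorem nullForm_conj (z : Fin 2 → K) (E : Fin 2 → Derivation ℂ K K)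
    (ω : (Fin 2 → Derivation ℂ K K) → K) (g : Ω ≃ₐ[ℂ] Ω) {c : (K →ₐ[ℂ] Ω) →₀ ℤ}
    (hc : c ∈ nullForm z E ω) :
    c.mapDomain (AlgEquiv.arrowCongr (AlgEquiv.refl : K ≃ₐ[ℂ] K) g) ∈ nullForm z E ω := by
  intro D
  have h1 : (tr z E ω D).comp
      (Finsupp.mapDomain.addMonoidHom (AlgEquiv.arrowCongr (AlgEquiv.refl : K ≃ₐ[ℂ] K) g)) =
      (g : Ω →+ Ω).comp (tr z E ω fun i => conjDer g (D i)) := by
    refine Finsupp.addHom_ext fun σ m => ?_
    rw [AddMonoidHom.comp_apply, AddMonoidHom.comp_apply,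
      Finsupp.mapDomain.addMonoidHom_apply, Finsupp.mapDomain_single, tr_single, tr_single,
      pullback_conj]
    change _ = g _
    rw [map_mul, map_intCast]
  have h2 := congrArg (fun φ : ((K →ₐ[ℂ] Ω) →₀ ℤ) →+ Ω => φ c) h1
  have h3 : (tr z E ω fun i => conjDer g (D i)) c = 0 := hc _
  change tr z E ω D _ = g ((tr z E ω fun i => conjDer g (D i)) c) at h2
  rw [h3, map_zero] at h2
  exact h2

end

theorem exists_frame' {K : Type} [Field K] [Algebra ℂ K] (hK : Algebra.trdeg ℂ K = 2) :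
    ∃ (z : Fin 2 → K) (E : Fin 2 → Derivation ℂ K K),
      IsTranscendenceBasis ℂ z ∧ ∀ i j, E i (z j) = if i = j then 1 else 0 := by
  have hcK : CharZero K := charZero_of_injective_algebraMap (algebraMap ℂ K).injective
  obtain ⟨z, hz⟩ := exists_tb (k := ℂ) (L := K) (m := 2) (by rw [hK]; norm_num)
  choose E hE using fun i : Fin 2 => Pool.Agent.W602.GT.exists_der _ hz
    fun j => if i = j then (1 : K) else 0
  exact ⟨z, E, hz, hE⟩

section

variable {K₀ K : Type} [Field K₀] [Field K] [Algebra ℂ K₀] [Algebra ℂ K]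
  [Algebra K₀ K] [IsScalarTower ℂ K₀ K] [FiniteDimensional K₀ K] [Algebra.EssFiniteType ℂ K₀]

theorem noForms_down (h0 : Algebra.trdeg ℂ K₀ = 2) (h : NoForms K) : NoForms K₀ := by
  have he : Algebra.EssFiniteType ℂ K := Algebra.EssFiniteType.comp ℂ K₀ K
  intro ω hω D
  obtain ⟨z, E, hz, hE⟩ := exists_frame' h0
  have hz2 : IsTranscendenceBasis ℂ (fun j => algebraMap K₀ K (z j)) := hz.algebraMap_comp
  obtain ⟨E2, hE2⟩ := SJ.exists_up (N := K) hz
  have h1 := exists_pullback (N := K) hω.1 hz hE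
  have hgl : GlobalForm 2 (stdForm (fun j => algebraMap K₀ K (z j)) (algebraMap K₀ K (ω E))) := by
    refine ⟨h1.1, fun Q hQ => ?_⟩
    obtain ⟨e', P', hP'⟩ := Pool.Agent.W73.PG.PULL.exists_over' (K := K₀) Q
    have hP'd : Divisorial 2 P' := divisorial_down hP' hQ
    exact pull_reg_at h0 h1 hP'd (hω.2 P' hP'd) hP'
  have h2 := h _ hgl E2
  rw [h1.2 z E E2 hz hE hE2] at h2
  exact form_zero hz hE hω.1 ((map_eq_zero _).1 h2) D

/-- the trace of a global form is global -/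
theorem trace_global (h0 : Algebra.trdeg ℂ K₀ = 2) {ω : (Fin 2 → Derivation ℂ K K) → K}
    (hω : GlobalForm 2 ω) : ∃ η : (Fin 2 → Derivation ℂ K₀ K₀) → K₀,
      IsTrace ω η ∧ GlobalForm 2 η := by
  have he : Algebra.EssFiniteType ℂ K := Algebra.EssFiniteType.comp ℂ K₀ K
  obtain ⟨z, E, hz, hE⟩ := exists_frame' h0
  obtain ⟨E2, hE2⟩ := SJ.exists_up (N := K) hz
  have h1 := exists_trace hω.1 hz hE hE2
  exact ⟨_, h1, h1.1, fun P hP => tr_reg_at h0 hω.1 h1 hP fun Q e hQ =>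
    hω.2 Q (divisorial_up hQ hP)⟩

theorem noForms_of_cover (h0 : Algebra.trdeg ℂ K₀ = 2)
    (hG : DoublyTransitive K₀ K ∨ (Module.finrank K₀ K).Prime) {W : Type} [Field W] [Algebra ℂ W]
    [Algebra K₀ W] [IsScalarTower ℂ K₀ W] [FiniteDimensional K₀ W]
    (hred : ¬ IsField (K ⊗[K₀] W)) (hW : NoForms W) : NoForms K := by
  have heK : Algebra.EssFiniteType ℂ K := Algebra.EssFiniteType.comp ℂ K₀ K
  have heW : Algebra.EssFiniteType ℂ W := Algebra.EssFiniteType.comp ℂ K₀ W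
  obtain ⟨N, i1, i2, i3, i4, t1, t2, f1, f2, hbase, hlt⟩ := exists_component hred
  have heN : Algebra.EssFiniteType ℂ N := Algebra.EssFiniteType.comp ℂ K N
  have hK := trdeg_up' (K := K) h0
  have hWt := trdeg_up' (K := W) h0
  have hW0 : NoForms K₀ := noForms_down h0 hW
  intro ω hω D
  have hcΩ : CharZero (AlgebraicClosure K) :=
    charZero_of_injective_algebraMap (algebraMap ℂ (AlgebraicClosure K)).injective
  have hΩ : Algebra.trdeg ℂ (AlgebraicClosure K) = 2 := by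
    have h5 := trdeg_add_eq ℂ K (A := AlgebraicClosure K)
    have h6 : Algebra.IsAlgebraic K (AlgebraicClosure K) := AlgebraicClosure.isAlgebraic K
    rw [hK, trdeg_eq_zero_iff.2 h6, add_zero] at h5
    exact h5.symm
  obtain ⟨σ, hσdef⟩ : ∃ σ : K →ₐ[ℂ] AlgebraicClosure K,
    σ = IsScalarTower.toAlgHom ℂ K (AlgebraicClosure K) := ⟨_, rfl⟩
  obtain ⟨u, hu⟩ : ∃ u, u = restr K₀ (AlgebraicClosure K) σ := ⟨_, rfl⟩
  obtain ⟨S, hS, hcard, -⟩ := exists_fib (K' := W) u
  have hpos : 0 < Module.finrank K₀ W := Module.finrank_pos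
  obtain ⟨w, hw⟩ : S.Nonempty := Finset.card_pos.1 (by rw [hcard]; exact hpos)
  have hw' := (hS w).1 hw
  obtain ⟨h3, h4⟩ := phi_fibre hbase hlt w hw'
  obtain ⟨z, E, hz, hE⟩ := exists_frame' hK
  obtain ⟨y, F, hy, hF⟩ := exists_frame' hWt
  obtain ⟨x, G, hx, hG'⟩ := exists_frame' h0
  obtain ⟨F', hF'⟩ := SJ.exists_up (N := N) hy
  -- the correspondence
  have htrans := SJ.exists_transfer hω.1 hz hE hy hF hF'
  have hgl := transfer_global hK hWt htrans hω
  have h5 : Phi N K (Finsupp.single w (1 : ℤ)) ∈ nullForm z E ω := by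
    intro D'
    rw [tr_Phi htrans hy hF hz hE, tr_single]
    unfold pullback
    rw [hW _ hgl F, map_zero, mul_zero, mul_zero]
  -- the trace
  obtain ⟨η, hη1, hη2⟩ := trace_global (K := K) h0 hω
  have h6 : liftC K (Finsupp.single u (1 : ℤ)) ∈ nullForm z E ω := by
    intro D'
    rw [tr_lift hω.1 hη1 hx hG' hz hE, tr_single]
    unfold pullback
    rw [hW0 η hη2 G, map_zero, mul_zero, mul_zero]
  have h7 := key h0 hΩ hG (u := u) (nullForm z E ω) (fun g c hc => nullForm_conj z E ω g hc)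
    (fun n hn c hc D' => by
      have h8 := hc D'
      rw [map_nsmul, nsmul_eq_mul] at h8
      exact (mul_eq_zero.1 h8).resolve_left (by exact_mod_cast hn.ne')) h6 h5 h3 h4 σ hu.symm
  -- the form is zero
  have hz2 : IsTranscendenceBasis ℂ (fun j => σ (z j)) := by
    rw [hσdef]
    exact hz.algebraMap_comp
  choose D' hD' using fun i : Fin 2 => Pool.Agent.W602.GT.exists_der _ hz2
    fun j => if i = j then (1 : AlgebraicClosure K) else 0
  have h8 := h7 D'
  rw [tr_single, Int.cast_one, one_mul] at h8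
  unfold pullback at h8
  have h9 : (Matrix.of fun i j => D' i (σ (z j)) : Matrix (Fin 2) (Fin 2) (AlgebraicClosure K)) =
      1 := by
    ext i j
    rw [Matrix.of_apply, hD', Matrix.one_apply]
  rw [h9, Matrix.det_one, one_mul] at h8
  exact form_zero hz hE hω.1 ((map_eq_zero σ).1 h8) D

end

end Pool.Agent.H32.DT
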